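import Pool.Agent.Lib.MP_3efbeb_nt.AP.Spec

/-!
# Module BAS: the base point of the array
-/

set_option autoImplicit false

namespace Pool.Agent.Lib.MP3efbeb.AP

open Finset

namespace BASM

/-- a residue avoiding few classes -/
lemma avoid {β : Type} (p : ℕ) (Λ : Finset β) (hp : Λ.card < p) (F : β → ℕ) :
    ∃ a : ℕ, ∀ v ∈ Λ, ¬ p ∣ a + F v := by
  classical
  by_contra hcon
  push Not at hcon
  have hp0 : 0 < p := by omega
  have : Nonempty β := ⟨(hcon 0).choose⟩
  have hmaps : ∀ a ∈ range p, ∃ v, v ∈ Λ ∧ p ∣ a + F v := fun a _ => hcon a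
  choose! f hf1 hf2 using hmaps
  have hinj : Set.InjOn f (((range p : Finset ℕ)) : Set ℕ) := by
    intro a ha b hb hab
    rw [mem_coe] at ha hb
    have h1 := hf2 a ha
    have h2 := hf2 b hb
    rw [← hab] at h2
    have ha' := mem_range.1 ha
    have hb' := mem_range.1 hb
    have h3 : a ≡ b [MOD p] := by
      have e1 : a + F (f a) ≡ b + F (f a) [MOD p] :=
        ((Nat.modEq_zero_iff_dvd.2 h1).trans (Nat.modEq_zero_iff_dvd.2 h2).symm)
      exact Nat.ModEq.add_right_cancel' _ e1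
    exact Nat.ModEq.eq_of_lt_of_lt h3 ha' hb'
  have := card_le_card_of_injOn f (fun a ha => hf1 a (mem_coe.1 ha)) hinj
  rw [card_range] at this
  omega

end BASM

theorem specBAS (hSPC : SpecSPC) (hBLK : SpecBLK) : SpecBAS := by
  classical
  intro m L w hw
  obtain ⟨X0, hX0⟩ := hSPC m L (∑ r : Fin m, (m * L ^ m + r))
  refine ⟨m * L ^ m, X0 + w + L ^ m, ?_⟩
  intro Q hQc hQd hQp
  set P : Finset ℕ := univ.biUnion Q with hP
  set T : Fin m → ℕ := fun r => ∏ p ∈ Q r, p with hT
  have hPmem : ∀ p ∈ P, ∃ r, p ∈ Q r := fun p hp => by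
    rw [hP, mem_biUnion] at hp
    obtain ⟨r, -, hr⟩ := hp
    exact ⟨r, hr⟩
  have hQP : ∀ r, ∀ p ∈ Q r, p ∈ P := fun r p hp => mem_biUnion.2 ⟨r, mem_univ _, hp⟩
  have hPprime : ∀ p ∈ P, p.Prime := fun p hp => by
    obtain ⟨r, hr⟩ := hPmem p hp
    exact (hQp r p hr).1
  have hPX : ∀ p ∈ P, X0 + w + L ^ m < p := fun p hp => by
    obtain ⟨r, hr⟩ := hPmem p hp
    exact (hQp r p hr).2
  have hPc : P.card ≤ ∑ r : Fin m, (m * L ^ m + r) := by
    refine card_biUnion_le.trans (sum_le_sum fun r _ => (hQc r).le)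
  obtain ⟨c, hc, hsp⟩ := hX0 P T hPc (fun p hp => ⟨hPprime p hp, by have := hPX p hp; omega⟩)
  have hTdvd : ∀ r, ∀ p ∈ Q r, ∀ l, p ∣ T l → l = r := by
    intro r p hp l hl
    obtain ⟨p', hp', hpp'⟩ := (Prime.dvd_finsetProd_iff (hQp r p hp).1.prime _).1 hl
    have : p = p' := (Nat.prime_dvd_prime_iff_eq (hQp r p hp).1 (hQp l p' hp').1).1 hpp'
    by_contra hne
    exact (Finset.disjoint_left.1 (hQd l r hne) hp') (this ▸ hp)
  -- the blocks
  set Λ : Fin m → Finset (Fin m → ℕ) := fun r =>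
    (Fintype.piFinset (fun _ => range L)).filter (fun v => v r = 0) with hΛ
  have hΛc : ∀ r, (Λ r).card ≤ L ^ m := by
    intro r
    refine (card_filter_le _ _).trans ?_
    rw [Fintype.card_piFinset_const, card_range]
  have hΛmem : ∀ r v, v ∈ Λ r ↔ (∀ l, v l < L) ∧ v r = 0 := by
    intro r v
    rw [hΛ]
    simp only [mem_filter, Fintype.mem_piFinset, mem_range]
  have hg : ∀ r : Fin m, ∃ g : (Fin m → ℕ) → Finset ℕ, (∀ v ∈ Λ r, g v ⊆ Q r ∧ (g v).card = (r : ℕ)) ∧
      ∀ v ∈ Λ r, ∀ v' ∈ Λ r, v ≠ v' → Disjoint (g v) (g v') := by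
    intro r
    refine hBLK _ (Q r) (Λ r) r ?_
    rw [hQc r]
    calc (r : ℕ) * (Λ r).card ≤ m * L ^ m := Nat.mul_le_mul r.2.le (hΛc r)
      _ ≤ m * L ^ m + r := Nat.le_add_right _ _
  choose g hg1 hg2 using hg
  set S : (Fin m → ℕ) → ℕ := fun v => ∑ l, c l * T l * v l with hS
  -- separation
  have hsep : ∀ r, ∀ p ∈ Q r, ∀ a : ℕ, ∀ v ∈ Λ r, ∀ v' ∈ Λ r, p ∣ a + w * S v → p ∣ a + w * S v' → v = v' := by
    intro r p hp a v hv v' hv' h1 h2
    have hpP := hQP r p hp
    have hpr := hPprime p hpP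
    have h3 : (p : ℤ) ∣ (w : ℤ) * ((S v : ℤ) - S v') := by
      have e1 : (p : ℤ) ∣ (a : ℤ) + w * S v := by exact_mod_cast h1
      have e2 : (p : ℤ) ∣ (a : ℤ) + w * S v' := by exact_mod_cast h2
      have := dvd_sub e1 e2
      have e3 : ((a : ℤ) + w * S v) - (a + w * S v') = (w : ℤ) * ((S v : ℤ) - S v') := by ring
      rwa [e3] at this
    have h4 : (p : ℤ) ∣ (S v : ℤ) - S v' := by
      rcases (Nat.prime_iff_prime_int.1 hpr).dvd_or_dvd h3 with h | h
      · exfalso
        have h5 : p ∣ w := by exact_mod_cast h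
        have := Nat.le_of_dvd (by omega) h5
        have := hPX p hpP
        omega
      · exact h
    have h5 : (S v : ℤ) - S v' = ∑ l, (c l : ℤ) * T l * ((v l : ℤ) - v' l) := by
      rw [hS]
      push_cast
      rw [← sum_sub_distrib]
      exact sum_congr rfl fun l _ => by ring
    rw [h5] at h4
    have hv1 := (hΛmem r v).1 hv
    have hv1' := (hΛmem r v').1 hv'
    have h6 := hsp p hpP (fun l => (v l : ℤ) - v' l) (fun l => by
      have a1 := hv1.1 l
      have a2 := hv1'.1 l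
      show |(v l : ℤ) - v' l| < L
      rw [abs_lt]
      constructor <;> omega) h4
    funext l
    rcases h6 l with h | h
    · have : (v l : ℤ) = v' l := by linarith
      exact_mod_cast this
    · have hl := hTdvd r p hp l h
      rw [hl, hv1.2, hv1'.2]
  -- the residues
  have hres : ∀ p ∈ P, ∃ a : ℕ, ∀ r, p ∈ Q r → ∀ v ∈ Λ r, (p ∣ a + w * S v ↔ p ∈ g r v) := by
    intro p hp
    obtain ⟨r, hr⟩ := hPmem p hp
    have hp0 : 0 < p := (hPprime p hp).pos
    have key : ∃ a : ℕ, ∀ v ∈ Λ r, (p ∣ a + w * S v ↔ p ∈ g r v) := by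
      by_cases h : ∃ v1 ∈ Λ r, p ∈ g r v1
      · obtain ⟨v1, hv1, hpv1⟩ := h
        refine ⟨p - (w * S v1) % p, fun v hv => ?_⟩
        have hdv : p ∣ p - (w * S v1) % p + w * S v1 := by
          have h1 : (w * S v1) % p ≤ p := (Nat.mod_lt _ hp0).le
          have h2 : p - (w * S v1) % p + w * S v1 = p + (w * S v1 / p) * p := by
            have h3 := Nat.div_add_mod (w * S v1) p
            have h4 : w * S v1 = (w * S v1 / p) * p + (w * S v1) % p := by
              rw [mul_comm (w * S v1 / p) p]; exact h3.symm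
            omega
          rw [h2]
          exact dvd_add (dvd_refl p) (dvd_mul_left p _)
        constructor
        · intro hv2
          have := hsep r p hr _ v hv v1 hv1 hv2 hdv
          rw [this]
          exact hpv1
        · intro hpv
          have : v = v1 := by
            by_contra hne
            exact Finset.disjoint_left.1 (hg2 r v hv v1 hv1 hne) hpv hpv1
          rw [this]
          exact hdv
      · push Not at h
        obtain ⟨a, ha⟩ := BASM.avoid p (Λ r) (lt_of_le_of_lt (hΛc r) (by have := hPX p hp; omega)) (fun v => w * S v)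
        exact ⟨a, fun v hv => ⟨fun h1 => absurd h1 (ha v hv), fun h1 => absurd h1 (h v hv)⟩⟩
    obtain ⟨a, ha⟩ := key
    refine ⟨a, fun r' hr' => ?_⟩
    have : r' = r := by
      by_contra hne
      exact Finset.disjoint_left.1 (hQd r' r hne) hr' hr
    rw [this]
    exact ha
  choose! a ha using hres
  -- the Chinese remainder theorem
  have hcop : Set.Pairwise (P : Set ℕ) (Function.onFun Nat.Coprime id) := by
    intro p hp q hq hpq
    exact (Nat.coprime_primes (hPprime p hp) (hPprime q hq)).2 hpq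
  obtain ⟨k, hk⟩ := Nat.chineseRemainderOfFinset a id P (fun p hp => (hPprime p hp).ne_zero) hcop
  have hwP : Nat.Coprime w (∏ p ∈ P, p) := by
    refine Nat.Coprime.prod_right fun p hp => ?_
    refine (Nat.Coprime.symm ((Nat.Prime.coprime_iff_not_dvd (hPprime p hp)).2 fun h => ?_))
    have := Nat.le_of_dvd (by omega) h
    have := hPX p hp
    omega
  have hPne : (∏ p ∈ P, p) ≠ 0 := prod_ne_zero_iff.2 fun p hp => (hPprime p hp).ne_zero
  set b₀ : ℕ := (Nat.chineseRemainder hwP 1 k : ℕ) with hb₀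
  have hb1 : b₀ ≡ 1 [MOD w] := (Nat.chineseRemainder hwP 1 k).2.1
  have hb2 : b₀ ≡ k [MOD ∏ p ∈ P, p] := (Nat.chineseRemainder hwP 1 k).2.2
  have hblt : b₀ < w * ∏ p ∈ P, p := Nat.chineseRemainder_lt_mul hwP 1 k (by omega) hPne
  have hprodP : ∏ p ∈ P, p = ∏ r, ∏ p ∈ Q r, p := by
    rw [hP, prod_biUnion]
    intro r _ r' _ hne
    exact hQd r r' hne
  refine ⟨c, b₀, g, fun r => ⟨(hc r).1, by have := (hc r).2; omega⟩, ?_, ?_, ?_⟩
  · rw [← hprodP]
    exact hblt.le
  · rw [← Nat.modEq_zero_iff_dvd]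
    have h1 : b₀ + (w - 1) ≡ 1 + (w - 1) [MOD w] := hb1.add_right _
    have h2 : 1 + (w - 1) = w := by omega
    rw [h2] at h1
    exact h1.trans (Nat.modEq_zero_iff_dvd.2 (dvd_refl w))
  · intro r v hv
    have hv0 : Function.update v r 0 ∈ Λ r := by
      rw [hΛmem]
      refine ⟨fun l => ?_, Function.update_self _ _ _⟩
      by_cases hl : l = r
      · rw [hl, Function.update_self]
        exact lt_of_le_of_lt (Nat.zero_le _) (hv r)
      · rw [Function.update_of_ne hl]
        exact hv l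
    refine ⟨(hg1 r _ hv0).1, (hg1 r _ hv0).2, fun p hp => ?_⟩
    have hpP := hQP r p hp
    have hpT : p ∣ T r := dvd_prod_of_mem _ hp
    have hbp : b₀ ≡ a p [MOD p] :=
      (hb2.of_dvd (dvd_prod_of_mem (fun p : ℕ => p) hpP)).trans (hk p hpP)
    have hSv : S v ≡ S (Function.update v r 0) [MOD p] := by
      rw [hS]
      simp only
      rw [← Finset.add_sum_erase _ _ (mem_univ r), ← Finset.add_sum_erase (a := r) _ (fun l => c l * T l * Function.update v r 0 l) (mem_univ r)]
      refine Nat.ModEq.add ?_ ?_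
      · have e1 : p ∣ c r * T r * v r := (hpT.mul_left _).mul_right _
        have e2 : p ∣ c r * T r * Function.update v r 0 r := (hpT.mul_left _).mul_right _
        exact (Nat.modEq_zero_iff_dvd.2 e1).trans (Nat.modEq_zero_iff_dvd.2 e2).symm
      · rw [Finset.sum_congr rfl fun l hl => by
          rw [← Function.update_of_ne (ne_of_mem_erase hl) (0 : ℕ) v]]
    have h3 : b₀ + w * ∑ l, c l * (∏ p ∈ Q l, p) * v l ≡ a p + w * S (Function.update v r 0) [MOD p] :=
      Nat.ModEq.add hbp (hSv.mul_left w)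
    rw [← ha p hpP r hp _ hv0]
    exact (Nat.ModEq.dvd_iff h3 (dvd_refl p))

end Pool.Agent.Lib.MP3efbeb.AP
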