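import Pool.Agent.Lib.MP_3efbeb_nt.Odd.Spec

/-!
# MP_3efbeb_nt, arithmetic progressions of bounded difference: definitions and exact Specs

**Theorem.** For all `k`, `m ≥ 1` there are `D`, `C` such that for all `a`, `z ≥ 2`, `x ≥ z ^ C` at least `x / z ^ C`
of the `n ≤ x` have, for some `1 ≤ d ≤ D`: all `n + i d` (`i < k`) have only prime factors `> z` and
`Ω(n + i d) ≡ a (mod m)`.

Every module: file `AP/<NAME>.lean`, theorem `specNAME (hXX : SpecXX) .. : SpecNAME` in the namespace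
`Pool.Agent.Lib.MP3efbeb.AP`, own lemmas in `Pool.Agent.Lib.MP3efbeb.AP.<NAME>M`.
`Rough q n` (from `Odd/Defs.lean`): all prime factors of `n` are `≥ q`.
-/

set_option autoImplicit false

namespace Pool.Agent.Lib.MP3efbeb.AP

open Finset
open scoped Classical
open Pool.Agent.Lib.MP3efbeb.Odd (Rough SpecSV)

noncomputable section

/-- the number of prime factors modulo `m` -/
def cl (m n : ℕ) : ZMod m := (n.primeFactorsList.length : ZMod m)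

/-- **AP(d, s).** There is a progression `b + d w e i` (`i < W`), `1 ≤ b ≤ B`, `1 ≤ e ≤ E`, `b` coprime to `d`, of
`q`-rough numbers of class `s`. -/
def APd (m w W E B q d : ℕ) (s : ZMod m) : Prop :=
  ∃ b e : ℕ, 1 ≤ b ∧ b ≤ B ∧ 1 ≤ e ∧ e ≤ E ∧ Nat.Coprime b d ∧
    ∀ i < W, Rough q (b + d * w * e * i) ∧ cl m (b + d * w * e * i) = s

/-! ## Combinatorics -/

/-- GAL (no hypotheses). **Finite Gallai theorem** from the Hales-Jewett theorem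
`Combinatorics.Line.exists_mono_in_high_dimension` with `α` = the subtype of the `v` with all `v l < W`
(finite; for `W = 0` take `L = 0`... any `x`, `e = 1`; if `ι` is empty everything is one point); the map
`g ↦ ∑ i, (g i : ι → ℕ)` sends a line to `x + e v`, `e` = number of active coordinates `≥ 1`; `L` = (number of
coordinates) `* W + 1`. Compare the proof of `Combinatorics.exists_mono_homothetic_copy`. -/
def SpecGAL : Prop := ∀ (ι : Type) [Fintype ι] (κ : Type) [Finite κ] (W : ℕ), ∃ L : ℕ,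
  ∀ f : (ι → ℕ) → κ, ∃ (x : ι → ℕ) (e : ℕ) (c : κ), 1 ≤ e ∧ e ≤ L ∧
    ∀ v : ι → ℕ, (∀ l, v l < W) → (∀ l, x l + e * v l < L) ∧ f (fun l => x l + e * v l) = c

/-- RAM (no hypotheses). **Finite Ramsey theorem** for `N`-subsets and finitely many colours, for finite sets of
naturals. Induction on `N`; for `N + 1`: take `a = min P`, the homogeneous subset of `P ∖ {a}` for `D ↦ f (insert a D)`,
and so on: a set `Q` on which `f (insert a D)` (`a < min D`) depends only on `a`; then pigeonhole. -/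
def SpecRAM : Prop := ∀ (N M : ℕ) (κ : Type) [Finite κ], ∃ R : ℕ, ∀ P : Finset ℕ, R ≤ P.card →
  ∀ f : Finset ℕ → κ, ∃ Q ⊆ P, Q.card = M ∧ ∃ c : κ, ∀ D ⊆ Q, D.card = N → f D = c

/-- PRM (no hypotheses). `R` primes between `q` and `q ^ (R + 1)` (Bertrand: `Nat.exists_prime_lt_and_le_two_mul`). -/
def SpecPRM : Prop := ∀ R q : ℕ, 2 ≤ q → ∃ P : Finset ℕ, P.card = R ∧
  ∀ p ∈ P, p.Prime ∧ q ≤ p ∧ p ≤ q ^ (R + 1)

/-- SPC (no hypotheses). **Spacing constants.** `X = M (2L+1)^m + L + 1`. Choose `c 0, c 1, …` one after the other. If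
`p ∣ ∑ c_r T_r δ_r` let `r` be the largest index with `δ_r ≠ 0`, `p ∤ T_r`; modulo `p` the later terms vanish, and
`c_r T_r δ_r ≡ - (the earlier terms)`, so `c_r` lies in one class modulo `p`, i.e. (as `X < p`) it is one
value of `[1, X]` for each pair `(p, δ)`; there are `≤ M (2L+1)^m` pairs. (Induction on `m` with `Fin.snoc`, or on a
set of indices.) -/
def SpecSPC : Prop := ∀ m L M : ℕ, ∃ X : ℕ, ∀ (P : Finset ℕ) (T : Fin m → ℕ), P.card ≤ M →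
  (∀ p ∈ P, p.Prime ∧ X < p) → ∃ c : Fin m → ℕ, (∀ r, 1 ≤ c r ∧ c r ≤ X) ∧
    ∀ p ∈ P, ∀ δ : Fin m → ℤ, (∀ r, |δ r| < L) → (p : ℤ) ∣ ∑ r, (c r : ℤ) * T r * δ r →
      ∀ r, δ r = 0 ∨ p ∣ T r

/-- BLK (no hypotheses). Disjoint blocks of `r` elements of `A`, one for each element of `Λ`. -/
def SpecBLK : Prop := ∀ (β : Type) [DecidableEq β] (A : Finset ℕ) (Λ : Finset β) (r : ℕ), r * Λ.card ≤ A.card →
  ∃ g : β → Finset ℕ, (∀ v ∈ Λ, g v ⊆ A ∧ (g v).card = r) ∧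
    ∀ v ∈ Λ, ∀ v' ∈ Λ, v ≠ v' → Disjoint (g v) (g v')

/-! ## The array -/

/-- BAS (from SPC, BLK). **The base point.** `Q r` (`r < m`) disjoint sets of primes `> X₁` (`X₁` depends on `m, L, N`),
`|Q r| = N + r`, `N = m L^m`, `T r = ∏ Q r`; `c` from SPC with `M = ∑ (N + r)`, `L`, and `P = ⋃ Q r`. For each `r`
BLK gives blocks `g r v ⊆ Q r` of `r` primes for `v ∈ [0,L)^m` with `v r = 0`. By the Chinese remainder theorem
(`Nat.chineseRemainderOfFinset`) there is `b₀` with `b₀ ≡ 1 (mod w)` and, for `p ∈ g r v`,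
`b₀ ≡ - w ∑ c T v (mod p)`, and for `p ∈ Q r` in no block, `b₀` is in none of the `≤ L^m` classes
`- w ∑ c T v (mod p)`. (`p ∈ Q r` divides `T r` and no other `T r'`; `p ∤ w`.) If `p ∈ g r v` divides
`b₀ + w ∑ c T v'`, `v' r = 0`, then `p ∣ ∑ c T (v' - v)`, so `v' = v` by SPC. Conclusion: for all `v ∈ [0,L)^m` (any
value of `v r`, because `p ∣ T r`): `p ∈ Q r` divides `b₀ + w ∑ c T v` iff `p` is in the block of `update v r 0`. -/
def SpecBAS : Prop := ∀ m L w : ℕ, 1 ≤ w → ∃ N X : ℕ, ∀ Q : Fin m → Finset ℕ, (∀ r, (Q r).card = N + r) →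
  (∀ r r', r ≠ r' → Disjoint (Q r) (Q r')) → (∀ r, ∀ p ∈ Q r, p.Prime ∧ X < p) →
  ∃ (c : Fin m → ℕ) (b₀ : ℕ) (g : Fin m → (Fin m → ℕ) → Finset ℕ), (∀ r, 1 ≤ c r ∧ c r ≤ X) ∧
    b₀ ≤ w * ∏ r, ∏ p ∈ Q r, p ∧ w ∣ b₀ + (w - 1) ∧
    ∀ r, ∀ v : Fin m → ℕ, (∀ l, v l < L) →
      g r (Function.update v r 0) ⊆ Q r ∧ (g r (Function.update v r 0)).card = r ∧
      ∀ p ∈ Q r, (p ∣ b₀ + w * ∑ l, c l * (∏ p ∈ Q l, p) * v l ↔ p ∈ g r (Function.update v r 0))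

/-- ARR (from SV, GAL, BAS). **Step 2.** `ι = Fin m`, `κ = ZMod m`, `L` from GAL for `W`, `K0 = L^m`, `w = (2 K0)!`, `N, X`
from BAS, `E = X L`. With `A = w ∏_r ∏ Q r`: SV for the forms `A t + (b₀ + w ∑ c T v)`, `v ∈ [0,L)^m`
(primes `p ≤ 2 K0` divide `w`, and `b₀ ≡ 1 (mod w)`; primes `2 K0 < p < q` do not divide `A`; `q > X, 2 K0`):
there is `t < 2 q^C₁` such that with `b = b₀ + A t` all `M(v) = b + w ∑ c T v` are rough. GAL for
`f v = cl m (M v)`: `x, e, κ`. For `r`: `μ = ∏ (g r (update x r 0))`, `D = Q r ∖ g r (update x r 0)`, `d = ∏ D`,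
`T r = μ d`, `μ ∣ M(x)`, and `M(x + e i 1_r) / μ = M(x)/μ + d w (c_r e) i`; class `κ - r`; no `p ∈ D` divides `M(x)`
(BAS, `p ∣ A`), so `M(x)/μ` is coprime to `d`. -/
def SpecARR : Prop := ∀ (m W : ℕ) [NeZero m], ∃ w N E : ℕ, 1 ≤ w ∧ ∀ Cp : ℕ, ∃ C q0 : ℕ,
  ∀ q : ℕ, q0 ≤ q → ∀ Q : Fin m → Finset ℕ, (∀ r, (Q r).card = N + r) →
  (∀ r r', r ≠ r' → Disjoint (Q r) (Q r')) → (∀ r, ∀ p ∈ Q r, p.Prime ∧ q ≤ p ∧ p ≤ q ^ Cp) →
  ∃ κ : ZMod m, ∀ r : Fin m, ∃ D ⊆ Q r, D.card = N ∧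
    APd m w W E (q ^ C) q (∏ p ∈ D, p) (κ - ((r : ℕ) : ZMod m))

/-! ## The multilinear identity -/

/-- IDN (no hypotheses). `u l i = b l + d w e_l i`, `Λ = ∏_l ∏_{i<W} u l i`, `d ∣ Λ s + ∏ b l`. For `v` put
`P_v = ∏_l u l (v l)`, a divisor of `Λ`, coprime to `d`; `P_v ≡ ∏ b l (mod d)`, so
`d ∣ Λ s + P_v = P_v ((Λ/P_v) s + 1)` and `d ∣ (Λ/P_v) s + 1`: `F v` is the quotient. For `v' = update v l (v l + j)`
and `M = ∏_{l' ≠ l} u l' (v l')`: `d u l (v l) F v = (Λ/M) s + u l (v l)` and the same for `v'`; subtract,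
`u l (v l + j) - u l (v l) = d w e_l j`. -/
def SpecIDN : Prop := ∀ (m W w d s : ℕ) (b e : Fin m → ℕ), 1 ≤ d → (∀ l, 1 ≤ b l) →
  (∀ l, Nat.Coprime (b l) d) →
  d ∣ (∏ l, ∏ i ∈ range W, (b l + d * w * e l * i)) * s + ∏ l, b l →
  ∃ F : (Fin m → ℕ) → ℕ, ∀ v : Fin m → ℕ, (∀ l, v l < W) →
    d * F v = ((∏ l, ∏ i ∈ range W, (b l + d * w * e l * i)) / ∏ l, (b l + d * w * e l * v l)) * s + 1 ∧
    ∀ l j, v l + j < W →
      (b l + d * w * e l * (v l + j)) * F (Function.update v l (v l + j)) =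
        (b l + d * w * e l * v l) * F v + w * e l * j

/-- TRF (from SV, GAL, IDN). **Step 3.** `W` from GAL for `ι = Fin m`, `κ = ZMod m` and `k` (in the role of `W` there);
`K0 = W^m`, `M = (2 K0)!`. `u l` is the progression of `APd` of class `(l : ZMod m)`, `Λ` as in IDN; `Λ` is coprime to
`d` and to `M`, and `d` is coprime to `M` (`q > 2 K0`): `s₁ < d M` with `M ∣ s₁`, `d ∣ Λ s₁ + ∏ b l`. For
`s = s₁ + d M t` the `F v` are linear forms `((Λ/P_v) s₁ + 1)/d + (Λ/P_v) M t`; SV: for `p ≤ 2 K0` `p ∣ M ∣ s` and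
`d F = .. s + 1`; for `2 K0 < p < q`: `p ∤ (Λ/P_v) M`. So for `T = ⌊x/q^C₁⌋` and at least `T/q` of the `t ∈ [T, 2T)` all
`F v` are rough. GAL for `f v = cl m (F v)`: `x₀, e₀, κ`, and for `l` with `(l : ZMod m) = a - κ` the numbers
`u l (v l) F v`, `v = x₀ + e₀ i 1_l`, `i < k`, are `n + (w e_l e₀) i`, rough, of class `l + κ = a`
(`D = w E W`...). `n = u l (x₀ l) F x₀ ≤ 2 Λ s + 1 ≤ x` is strictly increasing in `t` for fixed `l, x₀`
(`≤ m W^m` choices): a choice which occurs for at least `T/(m W^m q)` of the `t`. -/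
def SpecTRF : Prop := ∀ (m k : ℕ) [NeZero m], ∃ W : ℕ, ∀ w E C' : ℕ, 1 ≤ w → ∃ D C q0 : ℕ,
  ∀ q : ℕ, q0 ≤ q → ∀ d : ℕ, 1 ≤ d → d ≤ q ^ C' → Rough q d →
  (∀ s : ZMod m, APd m w W E (q ^ C') q d s) → ∀ (a : ZMod m) (x : ℕ), q ^ C ≤ x →
  x ≤ q ^ C * ((Icc 1 x).filter (fun n => ∃ e : ℕ, 1 ≤ e ∧ e ≤ D ∧
    ∀ i < k, Rough q (n + i * e) ∧ cl m (n + i * e) = a)).card

/-- FIN (from ARR, TRF, RAM, PRM). `W` from TRF, then `w, N, E` from ARR for this `W`; `M = ∑_{r<m} (N + r)`, `R` from RAM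
for `N`, `M` and the colours `Set (ZMod m)`; `Cp = R + 1`; `C₁, q₁` from ARR; `C' = max C₁ (Cp N)`; `D, C, q₂` from
TRF. For `z ≥ 2` take `q = z + (..)` with `q₁, q₂ ≤ q`, `z < q`, `q ≤ z ^ c`; `R` primes from PRM; colour
`D ↦ {s | APd .. (∏ D) s}`; homogeneous set split into `Q r`; ARR: the common set contains `κ - r` for all `r < m`,
so it is everything. TRF for `d = ∏ D`, `D` any `N`-subset. Part (2), one difference: `x = z ^ (C + 1)`, pigeonhole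
over `d ≤ D`. -/
def SpecFIN : Prop := ∀ k m : ℕ, 1 ≤ m →
  (∃ D C : ℕ, ∀ a z : ℕ, 2 ≤ z → ∀ x : ℕ, z ^ C ≤ x →
    x ≤ z ^ C * ((Icc 1 x).filter (fun n => ∃ d : ℕ, 1 ≤ d ∧ d ≤ D ∧ ∀ i < k,
      (∀ p : ℕ, p.Prime → p ∣ n + i * d → z < p) ∧
      (n + i * d).primeFactorsList.length % m = a % m)).card) ∧
  ∀ a : ℕ, ∃ d C : ℕ, 1 ≤ d ∧ ∀ N : ℕ, ∃ n : ℕ, N < n ∧ ∀ i < k,
    (∀ p : ℕ, p.Prime → p ∣ n + i * d → n < p ^ C) ∧
    (n + i * d).primeFactorsList.length % m = a % m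

end

end Pool.Agent.Lib.MP3efbeb.AP
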